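import Mathlib

set_option autoImplicit false

/-!
# Finite time blow-up for the KdV equation on a finite interval

For each of the three families of boundary operators `B_k`, `k = 2, 3, 4`, and every length `L > 0`
there is a choice of the coefficients for which the initial-boundary value problem
`u_t + u_x + u_xxx + u u_x = 0`, `u(x,0) = φ(x)`, `B_k u = h`, has smooth solutions that blow up in
finite time, with `φ` affine and `h` constant in time (and `h = 0` for `k = 4`).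
-/

namespace Pool.Agent.Results.MP_0e2b0d_an.Blowup

open MeasureTheory Filter Topology Set

/-- The real coefficients `a_{ij}`, `b_{ij}` that occur in the boundary operators. -/
structure Coeffs where
  a10 : ℝ
  a11 : ℝ
  a20 : ℝ
  a21 : ℝ
  a30 : ℝ
  b10 : ℝ
  b20 : ℝ
  b30 : ℝ

/-- The boundary operator `B_k = B_{k,0} + B_{k,1}` on `(0,L)` applied to a function `v` of the space
variable (at a fixed time), for `k = 2, 3, 4`; any other `k` gives the operator of the case `k = 1`. -/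
noncomputable def boundary (k : ℕ) (c : Coeffs) (L : ℝ) (v : ℝ → ℝ) : ℝ × ℝ × ℝ :=
  match k with
  | 2 => (v 0,
          iteratedDeriv 1 v L + c.b30 * v L,
          iteratedDeriv 2 v L + (c.a21 * iteratedDeriv 1 v 0 + c.b20 * v L))
  | 3 => (iteratedDeriv 2 v 0 + (c.a10 * v 0 + c.a11 * iteratedDeriv 1 v 0),
          v L,
          iteratedDeriv 1 v L + c.a30 * v 0)
  | 4 => (iteratedDeriv 2 v 0 + (c.a10 * v 0 + c.a11 * iteratedDeriv 1 v 0 + c.b10 * v L),
          iteratedDeriv 1 v L + (c.a30 * v 0 + c.b30 * v L),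
          iteratedDeriv 2 v L + (c.a20 * v 0 + c.a21 * iteratedDeriv 1 v 0 + c.b20 * v L))
  | _ => (v 0, v L, iteratedDeriv 1 v L)

/-- The square of the norm of the Sobolev space `H^m(0,L)` of integer order `m`, on smooth functions:
`∑_{j ≤ m} ∫_0^L |v^{(j)}(x)|^2 dx`. -/
noncomputable def sobolevNormSq (m : ℕ) (L : ℝ) (v : ℝ → ℝ) : ℝ :=
  ∑ j ∈ Finset.range (m + 1), ∫ x in (0 : ℝ)..L, (iteratedDeriv j v x) ^ 2

/-- `u` (written `u t x`) is an infinitely differentiable solution on `[0,L] × [0,T)` of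
`u_t + u_x + u_xxx + u u_x = 0`, `u(x,0) = φ(x)`, `B_k u = h`. All derivatives are classical, `u` is
infinitely differentiable on a neighbourhood of `[0,L] × [0,T)`, and `t ↦ u(t,·)` is continuous on
`[0,T)` with values in `H^m(0,L)` for every order `m`. -/
structure IsSmoothSolution (k : ℕ) (c : Coeffs) (L T : ℝ) (φ : ℝ → ℝ) (h : ℝ → ℝ × ℝ × ℝ)
    (u : ℝ → ℝ → ℝ) : Prop where
  smooth : ContDiffOn ℝ (⊤ : ℕ∞) (fun p : ℝ × ℝ => u p.1 p.2) (Iio T ×ˢ univ)
  continuous_sobolev : ∀ m : ℕ, ∀ t₀ ∈ Ico (0 : ℝ) T,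
    Tendsto (fun t => sobolevNormSq m L (fun x => u t x - u t₀ x)) (𝓝[Ico 0 T] t₀) (𝓝 0)
  equation : ∀ t ∈ Ico (0 : ℝ) T, ∀ x ∈ Icc (0 : ℝ) L,
    deriv (fun s => u s x) t + iteratedDeriv 1 (u t) x + iteratedDeriv 3 (u t) x
      + u t x * iteratedDeriv 1 (u t) x = 0
  initial : ∀ x ∈ Icc (0 : ℝ) L, u 0 x = φ x
  boundary_eq : ∀ t ∈ Ico (0 : ℝ) T, boundary k c L (u t) = h t

/-- `u` blows up at time `T`: its norm in `L^2(0,L)` tends to infinity as `t → T⁻`, and no function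
that is continuous on `[0,T]` with values in `L^2(0,L)` extends `u` from `[0,T)`. -/
def BlowsUpAt (L T : ℝ) (u : ℝ → ℝ → ℝ) : Prop :=
  Tendsto (fun t => ∫ x in (0 : ℝ)..L, (u t x) ^ 2) (𝓝[<] T) atTop ∧
  ¬ ∃ U : ℝ → Lp ℝ 2 (volume.restrict (Ioo (0 : ℝ) L)), ContinuousOn U (Icc 0 T) ∧
      ∀ t ∈ Ico (0 : ℝ) T, U t =ᵐ[volume.restrict (Ioo (0 : ℝ) L)] u t

/-- The explicit solution. -/
noncomputable def sol (T x₀ : ℝ) (t x : ℝ) : ℝ := -1 + (t - T)⁻¹ * (x - x₀)

theorem iteratedDeriv_one_affine (a b x₀ : ℝ) :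
    iteratedDeriv 1 (fun x : ℝ => b + a * (x - x₀)) = fun _ => a := by
  funext x
  rw [iteratedDeriv_one]
  have h : HasDerivAt (fun x : ℝ => b + a * (x - x₀)) (a * 1) x :=
    (((hasDerivAt_id x).sub_const x₀).const_mul a).const_add b
  rw [h.deriv, mul_one]

theorem iteratedDeriv_two_affine (a b x₀ : ℝ) :
    iteratedDeriv 2 (fun x : ℝ => b + a * (x - x₀)) = fun _ => 0 := by
  rw [iteratedDeriv_succ, iteratedDeriv_one_affine]
  funext x
  simp

theorem iteratedDeriv_three_affine (a b x₀ : ℝ) :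
    iteratedDeriv 3 (fun x : ℝ => b + a * (x - x₀)) = fun _ => 0 := by
  rw [iteratedDeriv_succ, iteratedDeriv_two_affine]
  funext x
  simp

theorem sol_one (T x₀ t : ℝ) : iteratedDeriv 1 (sol T x₀ t) = fun _ => (t - T)⁻¹ :=
  iteratedDeriv_one_affine _ _ _

theorem sol_two (T x₀ t : ℝ) : iteratedDeriv 2 (sol T x₀ t) = fun _ => 0 :=
  iteratedDeriv_two_affine _ _ _

theorem sol_three (T x₀ t : ℝ) : iteratedDeriv 3 (sol T x₀ t) = fun _ => 0 :=
  iteratedDeriv_three_affine _ _ _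

theorem sol_deriv_time (T x₀ t x : ℝ) (ht : t < T) :
    deriv (fun s => sol T x₀ s x) t = -((t - T) ^ 2)⁻¹ * (x - x₀) := by
  have hne : t - T ≠ 0 := ne_of_lt (sub_neg.mpr ht)
  have h1 : HasDerivAt (fun s : ℝ => (s - T)⁻¹) (-1 / (t - T) ^ 2) t :=
    ((hasDerivAt_id t).sub_const T).inv hne
  have h2 := (h1.mul_const (x - x₀)).const_add (-1)
  have h3 : deriv (fun s => sol T x₀ s x) t = -1 / (t - T) ^ 2 * (x - x₀) := h2.deriv
  rw [h3]
  ring

theorem sol_equation (T x₀ t x : ℝ) (ht : t < T) :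
    deriv (fun s => sol T x₀ s x) t + iteratedDeriv 1 (sol T x₀ t) x
      + iteratedDeriv 3 (sol T x₀ t) x + sol T x₀ t x * iteratedDeriv 1 (sol T x₀ t) x = 0 := by
  have hne : t - T ≠ 0 := ne_of_lt (sub_neg.mpr ht)
  rw [sol_deriv_time T x₀ t x ht, sol_one, sol_three]
  unfold sol
  field_simp
  ring

theorem sol_smooth (T x₀ : ℝ) :
    ContDiffOn ℝ (⊤ : ℕ∞) (fun p : ℝ × ℝ => sol T x₀ p.1 p.2) (Iio T ×ˢ univ) := by
  unfold sol
  apply ContDiffOn.add contDiffOn_const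
  apply ContDiffOn.mul
  · apply ContDiffOn.inv
    · exact (contDiff_fst.sub contDiff_const).contDiffOn
    · rintro ⟨t, x⟩ ⟨ht, -⟩
      exact ne_of_lt (sub_neg.mpr ht)
  · exact (contDiff_snd.sub contDiff_const).contDiffOn

theorem sobolevNormSq_mul (m : ℕ) (L κ : ℝ) (v : ℝ → ℝ) :
    sobolevNormSq m L (fun x => κ * v x) = κ ^ 2 * sobolevNormSq m L v := by
  unfold sobolevNormSq
  rw [Finset.mul_sum]
  apply Finset.sum_congr rfl
  intro j _
  rw [← intervalIntegral.integral_const_mul]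
  apply intervalIntegral.integral_congr
  intro x _
  have : iteratedDeriv j (fun x => κ * v x) x = κ * iteratedDeriv j v x := by
    apply iteratedDeriv_const_mul_field
  simp only [this]
  ring

theorem sol_sobolev (m : ℕ) (L T x₀ t₀ : ℝ) (ht₀ : t₀ < T) :
    Tendsto (fun t => sobolevNormSq m L (fun x => sol T x₀ t x - sol T x₀ t₀ x))
      (𝓝[Ico 0 T] t₀) (𝓝 0) := by
  have hne : t₀ - T ≠ 0 := ne_of_lt (sub_neg.mpr ht₀)
  have heq : ∀ t : ℝ, sobolevNormSq m L (fun x => sol T x₀ t x - sol T x₀ t₀ x) =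
      ((t - T)⁻¹ - (t₀ - T)⁻¹) ^ 2 * sobolevNormSq m L (fun x : ℝ => x - x₀) := by
    intro t
    rw [← sobolevNormSq_mul m L _ _]
    congr 1
    funext x
    unfold sol
    ring
  simp only [heq]
  have h1 : Tendsto (fun t : ℝ => (t - T)⁻¹) (𝓝 t₀) (𝓝 (t₀ - T)⁻¹) :=
    ((continuous_id.sub continuous_const).tendsto t₀).inv₀ hne
  have h2 : Tendsto (fun t : ℝ => ((t - T)⁻¹ - (t₀ - T)⁻¹) ^ 2 *
      sobolevNormSq m L (fun x : ℝ => x - x₀)) (𝓝 t₀)
      (𝓝 (((t₀ - T)⁻¹ - (t₀ - T)⁻¹) ^ 2 * sobolevNormSq m L (fun x : ℝ => x - x₀))) :=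
    ((h1.sub_const _).pow 2).mul_const _
  rw [sub_self, zero_pow two_ne_zero, zero_mul] at h2
  exact h2.mono_left nhdsWithin_le_nhds

theorem sol_solution (k : ℕ) (c : Coeffs) (L T x₀ : ℝ) (h : ℝ × ℝ × ℝ)
    (hb : ∀ t ∈ Ico (0 : ℝ) T, boundary k c L (sol T x₀ t) = h) :
    IsSmoothSolution k c L T (sol T x₀ 0) (fun _ => h) (sol T x₀) where
  smooth := sol_smooth T x₀
  continuous_sobolev := fun m t₀ ht₀ => sol_sobolev m L T x₀ t₀ ht₀.2
  equation := fun t ht x _ => sol_equation T x₀ t x ht.2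
  initial := fun x _ => rfl
  boundary_eq := hb

theorem integral_sol (L T x₀ t : ℝ) :
    ∫ x in (0 : ℝ)..L, (sol T x₀ t x) ^ 2 =
      L - 2 * (t - T)⁻¹ * (L ^ 2 / 2 - x₀ * L)
        + ((t - T)⁻¹) ^ 2 * (L ^ 3 / 3 - x₀ * L ^ 2 + x₀ ^ 2 * L) := by
  set a := (t - T)⁻¹ with ha
  have hF : ∀ x ∈ uIcc (0 : ℝ) L, HasDerivAt (fun x : ℝ => x - 2 * a * (x ^ 2 / 2 - x₀ * x)
      + a ^ 2 * (x ^ 3 / 3 - x₀ * x ^ 2 + x₀ ^ 2 * x)) ((sol T x₀ t x) ^ 2) x := by
    intro x _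
    have h1 : HasDerivAt (fun x : ℝ => x) 1 x := hasDerivAt_id x
    have h2 : HasDerivAt (fun x : ℝ => x ^ 2) (2 * x) x := by
      simpa using hasDerivAt_pow 2 x
    have h3 : HasDerivAt (fun x : ℝ => x ^ 3) (3 * x ^ 2) x := by
      simpa using hasDerivAt_pow 3 x
    have h4 := (h1.sub (((h2.div_const 2).sub (h1.const_mul x₀)).const_mul (2 * a))).add
      ((((h3.div_const 3).sub (h2.const_mul x₀)).add (h1.const_mul (x₀ ^ 2))).const_mul (a ^ 2))
    refine HasDerivAt.congr_deriv h4 ?_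
    unfold sol
    rw [← ha]
    ring
  rw [intervalIntegral.integral_eq_sub_of_hasDerivAt hF]
  · ring
  · apply Continuous.intervalIntegrable
    unfold sol
    fun_prop

theorem sol_blowup (L T x₀ : ℝ) (hL : 0 < L) (hT : 0 < T) : BlowsUpAt L T (sol T x₀) := by
  have htend : Tendsto (fun t => ∫ x in (0 : ℝ)..L, (sol T x₀ t x) ^ 2) (𝓝[<] T) atTop := by
    simp only [integral_sol]
    have hinv : Tendsto (fun t : ℝ => (t - T)⁻¹) (𝓝[<] T) atBot := by
      have h1 : Tendsto (fun t : ℝ => t - T) (𝓝[<] T) (𝓝[<] 0) := by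
        apply tendsto_nhdsWithin_of_tendsto_nhds_of_eventually_within
        · have : Tendsto (fun t : ℝ => t - T) (𝓝 T) (𝓝 (T - T)) :=
            (continuous_id.sub continuous_const).tendsto T
          rw [sub_self] at this
          exact this.mono_left nhdsWithin_le_nhds
        · filter_upwards [self_mem_nhdsWithin] with t ht
          exact sub_neg.mpr (mem_Iio.mp ht)
      exact tendsto_inv_nhdsLT_zero.comp h1
    have hA : 0 < L ^ 3 / 3 - x₀ * L ^ 2 + x₀ ^ 2 * L := by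
      have : L ^ 3 / 3 - x₀ * L ^ 2 + x₀ ^ 2 * L = L * ((x₀ - L / 2) ^ 2 + L ^ 2 / 12) := by ring
      rw [this]
      positivity
    have hpoly : Tendsto (fun a : ℝ => L - 2 * a * (L ^ 2 / 2 - x₀ * L)
        + a ^ 2 * (L ^ 3 / 3 - x₀ * L ^ 2 + x₀ ^ 2 * L)) atBot atTop := by
      have h1 : Tendsto (fun a : ℝ => a * (a * (L ^ 3 / 3 - x₀ * L ^ 2 + x₀ ^ 2 * L)
          - 2 * (L ^ 2 / 2 - x₀ * L))) atBot atTop := by
        apply Tendsto.atBot_mul_atBot₀ tendsto_id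
        apply tendsto_atBot_add_const_right
        exact tendsto_id.atBot_mul_const hA
      have h2 := tendsto_atTop_add_const_left atBot L h1
      refine h2.congr ?_
      intro a
      ring
    exact hpoly.comp hinv
  refine ⟨htend, ?_⟩
  rintro ⟨U, hU, hUu⟩
  -- the norm of `U` is bounded near `T`
  have hcont : ContinuousWithinAt (fun t => ‖U t‖ ^ 2) (Icc 0 T) T :=
    ((hU T ⟨hT.le, le_refl T⟩).norm).pow 2
  have hlt : Tendsto (fun t => ‖U t‖ ^ 2) (𝓝[Ico 0 T] T) (𝓝 (‖U T‖ ^ 2)) :=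
    hcont.mono_left (nhdsWithin_mono _ Ico_subset_Icc_self)
  have hnebot : (𝓝[Ico 0 T] T).NeBot := by
    rw [nhdsWithin_Ico_eq_nhdsLT hT]
    infer_instance
  have heq : ∀ t ∈ Ico (0 : ℝ) T, ‖U t‖ ^ 2 = ∫ x in (0 : ℝ)..L, (sol T x₀ t x) ^ 2 := by
    intro t ht
    have h1 : ‖U t‖ ^ 2 = ∫ x, ((U t : ℝ → ℝ) x) ^ 2 ∂(volume.restrict (Ioo (0 : ℝ) L)) := by
      rw [← real_inner_self_eq_norm_sq, L2.inner_def]
      apply integral_congr_ae
      filter_upwards with x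
      simp [pow_two]
    rw [h1, intervalIntegral.integral_of_le hL.le, integral_Ioc_eq_integral_Ioo]
    apply integral_congr_ae
    filter_upwards [hUu t ht] with x hx
    rw [hx]
  have htend2 : Tendsto (fun t => ‖U t‖ ^ 2) (𝓝[Ico 0 T] T) atTop := by
    have h2 : Tendsto (fun t => ∫ x in (0 : ℝ)..L, (sol T x₀ t x) ^ 2) (𝓝[Ico 0 T] T) atTop := by
      rw [nhdsWithin_Ico_eq_nhdsLT hT]
      exact htend
    refine h2.congr' ?_
    filter_upwards [self_mem_nhdsWithin] with t ht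
    exact (heq t ht).symm
  exact not_tendsto_nhds_of_tendsto_atTop htend2 _ hlt

theorem sol_zero (T x₀ : ℝ) :
    sol T x₀ 0 = fun x => (0 - T)⁻¹ * x + (-1 - (0 - T)⁻¹ * x₀) := by
  funext x
  unfold sol
  ring

/-- For `k = 2, 3, 4` and every `L > 0` there are coefficients for which, for every `T > 0`, there are
an affine initial datum `φ(x) = α x + β` and boundary data `h` constant in time, equal to zero if
`k = 4`, such that `u_t + u_x + u_xxx + u u_x = 0`, `u(x,0) = φ(x)`, `B_k u = h` has a smooth solution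
on `[0,T)` which blows up at time `T`. -/
theorem result : ∀ k ∈ ({2, 3, 4} : Set ℕ), ∀ L : ℝ, 0 < L → ∃ c : Coeffs, ∀ T : ℝ, 0 < T →
    ∃ (α β : ℝ) (h : ℝ × ℝ × ℝ) (u : ℝ → ℝ → ℝ), (k = 4 → h = 0) ∧
      IsSmoothSolution k c L T (fun x => α * x + β) (fun _ => h) u ∧ BlowsUpAt L T u := by
  rintro k (rfl | rfl | rfl) L hL
  · refine ⟨⟨0, 0, 0, 0, 0, 0, 0, -1 / L⟩, fun T hT => ⟨(0 - T)⁻¹, -1 - (0 - T)⁻¹ * 0,
      (-1, 1 / L, 0), sol T 0, by norm_num, ?_, sol_blowup L T 0 hL hT⟩⟩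
    rw [← sol_zero T 0]
    refine sol_solution _ _ _ _ _ _ ?_
    intro t ht
    have hne : t - T ≠ 0 := ne_of_lt (sub_neg.mpr ht.2)
    simp only [boundary, sol_one, sol_two]
    unfold sol
    refine Prod.ext ?_ (Prod.ext ?_ ?_)
    · simp
    · simp only
      field_simp
      ring
    · simp
  · refine ⟨⟨0, 0, 0, 0, 1 / L, 0, 0, 0⟩, fun T hT => ⟨(0 - T)⁻¹, -1 - (0 - T)⁻¹ * L,
      (0, -1, -1 / L), sol T L, by norm_num, ?_, sol_blowup L T L hL hT⟩⟩
    rw [← sol_zero T L]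
    refine sol_solution _ _ _ _ _ _ ?_
    intro t ht
    have hne : t - T ≠ 0 := ne_of_lt (sub_neg.mpr ht.2)
    simp only [boundary, sol_one, sol_two]
    unfold sol
    refine Prod.ext ?_ (Prod.ext ?_ ?_)
    · simp
    · simp
    · simp only
      field_simp
      ring
  · refine ⟨⟨0, 0, 0, 0, 1 / L, 0, 0, -1 / L⟩, fun T hT => ⟨(0 - T)⁻¹, -1 - (0 - T)⁻¹ * 0,
      0, sol T 0, fun _ => rfl, ?_, sol_blowup L T 0 hL hT⟩⟩
    rw [← sol_zero T 0]
    refine sol_solution _ _ _ _ _ _ ?_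
    intro t ht
    have hne : t - T ≠ 0 := ne_of_lt (sub_neg.mpr ht.2)
    simp only [boundary, sol_one, sol_two]
    unfold sol
    refine Prod.ext ?_ (Prod.ext ?_ ?_)
    · simp
    · simp only [Prod.snd_zero, Prod.fst_zero]
      field_simp
      ring
    · simp

end Pool.Agent.Results.MP_0e2b0d_an.Blowup
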